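import Pool.Agent.PWG.St

/-!
# Groups with commensurating actions: the homomorphism of the centraliser
-/

set_option autoImplicit false

universe u v

namespace Pool.Agent.PWG

open Pointwise

namespace COM

/-- the homomorphism of a group `C` of elements which commute with `h` -/
theorem main (hIND : s_IND.{u, v}) (hINV : s_INV.{u, v}) (hPOS : s_POS.{u, v})
    (G : Type u) [Group G] (D : Type v) [MulAction G D] (M : Set D) (hM : Commens G M)
    (h : G) (hne : (Skew M h).Nonempty) (C : Subgroup G) (hC : ∀ z ∈ C, z * h = h * z)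
    (hh : h ∈ C) : ∃ φ : C →* Multiplicative ℤ, φ ⟨h, hh⟩ ≠ 1 := by
  have hH : ∀ z ∈ C, ∀ d ∈ Skew M h, z • d ∈ Skew M h := fun z hz d hd =>
    hINV G D M hM h z (hC z hz) d hd
  have hsm : ∀ z ∈ C, z • Skew M h = Skew M h := by
    intro z hz
    refine Set.Subset.antisymm ?_ ?_
    · rintro _ ⟨d, hd, rfl⟩
      exact hH z hz d hd
    · intro d hd
      refine ⟨z⁻¹ • d, hH _ (C.inv_mem hz) d hd, ?_⟩
      exact smul_inv_smul z d
  have hE : ∀ z ∈ C, symmDiff (M ∩ Skew M h) (z • (M ∩ Skew M h)) ⊆ symmDiff M (z • M) := by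
    intro z hz d hd
    rw [Set.smul_set_inter, hsm z hz] at hd
    rcases hd with ⟨⟨h1, h2⟩, h3⟩ | ⟨⟨h1, h2⟩, h3⟩
    · exact Or.inl ⟨h1, fun h4 => h3 ⟨h4, h2⟩⟩
    · exact Or.inr ⟨h1, fun h4 => h3 ⟨h4, h2⟩⟩
  have hfin : ∀ z ∈ C, (symmDiff (M ∩ Skew M h) (z • (M ∩ Skew M h))).Finite := fun z hz =>
    (hM z).subset (hE z hz)
  obtain ⟨τ, hτ⟩ := hIND C D (M ∩ Skew M h) fun z => hfin z.1 z.2
  obtain ⟨n, _, h1, h2⟩ := hPOS G D M h (fun d hd => hH h hh d hd)
    (fun d hd => hH h⁻¹ (C.inv_mem hh) d hd) (hfin h hh) hne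
  refine ⟨τ, fun h3 => ?_⟩
  have h4 : Multiplicative.toAdd (τ (⟨h, hh⟩ ^ n)) = 0 := by
    rw [map_pow, h3, one_pow]
    rfl
  have h5 : ((⟨h, hh⟩ : C) ^ n) • (M ∩ Skew M h) = h ^ n • (M ∩ Skew M h) := rfl
  rw [hτ, h5, h1, Set.ncard_empty] at h4
  have h6 : (((M ∩ Skew M h) \ h ^ n • (M ∩ Skew M h)).ncard : ℤ) = 0 := by
    have := h4
    push_cast at this
    linarith
  have h7 : ((M ∩ Skew M h) \ h ^ n • (M ∩ Skew M h)).Finite :=
    (hfin (h ^ n) (C.pow_mem hh n)).subset fun d hd => Or.inl hd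
  have h8 := (Set.ncard_eq_zero h7).1 (by exact_mod_cast h6)
  exact h2.ne_empty h8

end COM

theorem t_COM (hIND : s_IND.{u, v}) (hSKE : s_SKE.{u, v}) (hINV : s_INV.{u, v})
    (hPOS : s_POS.{u, v}) : s_COM.{u, v} := by
  intro G _ D _ M hM g hun
  have hg : g ∈ Subgroup.centralizer {g} := Subgroup.mem_centralizer_singleton_iff.2 rfl
  rcases hSKE G D M g (hM g) hun with h1 | h1
  · exact COM.main hIND hINV hPOS G D M hM g h1 (Subgroup.centralizer {g})
      (fun z hz => Subgroup.mem_centralizer_singleton_iff.1 hz) hg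
  · obtain ⟨φ, hφ⟩ := COM.main hIND hINV hPOS G D M hM g⁻¹ h1 (Subgroup.centralizer {g})
      (fun z hz => by
        have h2 : z * g = g * z := Subgroup.mem_centralizer_singleton_iff.1 hz
        exact (Commute.inv_right (show Commute z g from h2)).eq)
      (inv_mem hg)
    refine ⟨φ, fun h2 => hφ ?_⟩
    have h3 : (⟨g⁻¹, inv_mem hg⟩ : Subgroup.centralizer {g}) = ⟨g, hg⟩⁻¹ := rfl
    rw [h3, map_inv]
    have h4 : φ ⟨g, hg⟩ = 1 := h2
    rw [h4, inv_one]

end Pool.Agent.PWG
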