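import Mathlib

/-!
# Actions on spaces with walls
-/

set_option autoImplicit false

universe u

namespace Pool.Agent.PWG

open Pointwise

/-- `G` acts on a space with walls such that the elements of infinite order have unbounded orbits: `G` acts on
the set `X` and permutes a set `H` of subsets of `X`, the half spaces; only finitely many half spaces contain
one given point and not another one; and there is a point `x` such that for each `g` of infinite order the
numbers of the half spaces which contain exactly one of the points `x` and `g ^ n x`, `n ∈ ℕ`, are not
bounded. For example, `G` acts metrically properly on a CAT(0) cube complex of any dimension. -/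
def Walls (G : Type u) [Group G] : Prop :=
  ∃ (X : Type u) (_ : MulAction G X) (H : Set (Set X)),
    (∀ (g : G), ∀ h ∈ H, g • h ∈ H) ∧
    (∀ x y : X, {h | h ∈ H ∧ x ∈ h ∧ y ∉ h}.Finite) ∧
    ∃ x : X, ∀ g : G, ¬IsOfFinOrder g → ∀ N : ℕ, ∃ n : ℕ,
      N < {h | h ∈ H ∧ ¬(x ∈ h ↔ g ^ n • x ∈ h)}.ncard

end Pool.Agent.PWG
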