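import Pool.Agent.PWG.St

/-!
# Groups with commensurating actions: the index (module IND)
-/

set_option autoImplicit false

universe u v

namespace Pool.Agent.PWG

open Pointwise

namespace IND

variable {D : Type v}

/-- the index of two commensurable sets -/
noncomputable def ix (A B : Set D) : ℤ := ((A \ B).ncard : ℤ) - (B \ A).ncard

lemma diff_card {A B F : Set D} (hF : F.Finite) (h : symmDiff A B ⊆ F) :
    (A \ B).ncard + (A ∩ F ∩ B).ncard = (A ∩ F).ncard := by
  have h1 := Set.ncard_inter_add_ncard_sdiff_eq_ncard (A ∩ F) B (hF.subset Set.inter_subset_right)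
  have h2 : (A ∩ F) \ B = A \ B := by
    ext x
    constructor
    · rintro ⟨⟨h3, -⟩, h4⟩
      exact ⟨h3, h4⟩
    · rintro ⟨h3, h4⟩
      exact ⟨⟨h3, h (Or.inl ⟨h3, h4⟩)⟩, h4⟩
  rw [h2] at h1
  omega

lemma ix_eq {A B F : Set D} (hF : F.Finite) (h : symmDiff A B ⊆ F) :
    ix A B = ((A ∩ F).ncard : ℤ) - (B ∩ F).ncard := by
  have h1 := diff_card hF h
  have h2 := diff_card (A := B) (B := A) hF (by rwa [symmDiff_comm])
  have h3 : A ∩ F ∩ B = B ∩ F ∩ A := by
    ext x
    constructor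
    · rintro ⟨⟨h4, h5⟩, h6⟩
      exact ⟨⟨h6, h5⟩, h4⟩
    · rintro ⟨⟨h4, h5⟩, h6⟩
      exact ⟨⟨h6, h5⟩, h4⟩
  rw [h3] at h1
  unfold ix
  omega

/-- the index is additive -/
lemma ix_add {A B C : Set D} (h1 : (symmDiff A B).Finite) (h2 : (symmDiff B C).Finite) :
    ix A C = ix A B + ix B C := by
  have hF := h1.union h2
  have h3 : symmDiff A C ⊆ symmDiff A B ∪ symmDiff B C := by
    rintro x (⟨h4, h5⟩ | ⟨h4, h5⟩)
    · by_cases h6 : x ∈ B
      · exact Or.inr (Or.inl ⟨h6, h5⟩)
      · exact Or.inl (Or.inl ⟨h4, h6⟩)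
    · by_cases h6 : x ∈ B
      · exact Or.inl (Or.inr ⟨h6, h5⟩)
      · exact Or.inr (Or.inr ⟨h4, h6⟩)
  rw [ix_eq hF h3, ix_eq hF Set.subset_union_left, ix_eq hF Set.subset_union_right]
  ring

/-- the index is invariant -/
lemma ix_smul {G : Type u} [Group G] [MulAction G D] (z : G) (A B : Set D) :
    ix (z • A) (z • B) = ix A B := by
  unfold ix
  rw [← Set.smul_set_sdiff, ← Set.smul_set_sdiff, Set.ncard_smul_set, Set.ncard_smul_set]

lemma fin_smul {G : Type u} [Group G] [MulAction G D] {E : Set D} (h : Commens G E) (z w : G) :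
    (symmDiff ((z * w) • E) (z • E)).Finite := by
  have h1 : symmDiff ((z * w) • E) (z • E) = z • symmDiff E (w • E) := by
    rw [Set.smul_set_symmDiff, mul_smul, symmDiff_comm]
  rw [h1]
  exact (h w).smul_set

end IND

open IND in
/-- **IND**: the index of a commensurated subset. -/
theorem t_IND : s_IND.{u, v} := by
  intro G _ D _ E hE
  refine ⟨MonoidHom.mk' (fun z => Multiplicative.ofAdd (ix (z • E) E)) ?_, fun z => rfl⟩
  intro z w
  rw [← ofAdd_add]
  congr 1
  rw [ix_add (fin_smul hE z w) (by rw [symmDiff_comm]; exact hE z), mul_smul, ix_smul, add_comm]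

end Pool.Agent.PWG
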