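import Pool.Agent.PWG.St

/-!
# PWG, module INV: invariance of the skewered elements
-/

set_option autoImplicit false

universe u v

namespace Pool.Agent.PWG

open Pointwise

namespace INV

variable {G : Type u} [Group G] {D : Type v} [MulAction G D] {M : Set D} {g : G} {d : D}

/-- no positive power of `g` fixes a skewered element -/
theorem no_fix (hd : d ∈ Skew M g) {k : ℕ} (hk : 0 < k) : g ^ k • d ≠ d := by
  intro h
  obtain ⟨N, hN⟩ := hd
  have h1 : ∀ n : ℕ, g ^ (k * n) • d = d := by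
    intro n
    induction n with
    | zero => rw [mul_zero, pow_zero, one_smul]
    | succ n ih => rw [mul_add, mul_one, pow_add, mul_smul, h, ih]
  have h2 : (g ^ (k * N))⁻¹ • d = d := by
    rw [inv_smul_eq_iff]
    exact (h1 N).symm
  have h3 := hN (k * N) (Nat.le_mul_of_pos_left N hk)
  rw [h1 N, h2] at h3
  exact h3.2 h3.1

theorem pow_lt (hd : d ∈ Skew M g) {a b : ℕ} (hab : a < b) : g ^ a • d ≠ g ^ b • d := by
  intro h
  have hb : b = a + (b - a) := by omega
  rw [hb, pow_add, mul_smul] at h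
  exact no_fix hd (by omega : 0 < b - a) (smul_left_cancel _ h).symm

theorem inj_pos (hd : d ∈ Skew M g) : Function.Injective fun n : ℕ => g ^ n • d := by
  intro a b h
  rcases lt_trichotomy a b with h1 | h1 | h1
  · exact absurd h (pow_lt hd h1)
  · exact h1
  · exact absurd h.symm (pow_lt hd h1)

theorem inv_lt (hd : d ∈ Skew M g) {a b : ℕ} (hab : a < b) :
    (g ^ a)⁻¹ • d ≠ (g ^ b)⁻¹ • d := by
  intro h
  have hb : b = (b - a) + a := by omega
  rw [hb, pow_add, mul_inv_rev, mul_smul] at h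
  have h1 := smul_left_cancel _ h
  rw [eq_comm, inv_smul_eq_iff] at h1
  exact no_fix hd (by omega : 0 < b - a) h1.symm

theorem inj_neg (hd : d ∈ Skew M g) : Function.Injective fun n : ℕ => (g ^ n)⁻¹ • d := by
  intro a b h
  rcases lt_trichotomy a b with h1 | h1 | h1
  · exact absurd h (inv_lt hd h1)
  · exact h1
  · exact absurd h.symm (inv_lt hd h1)

theorem large {f : ℕ → D} (hf : Function.Injective f) {B : Set D} (hB : B.Finite) :
    ∃ N : ℕ, ∀ n, N ≤ n → f n ∉ B := by
  have h1 : (f ⁻¹' B).Finite := hB.preimage hf.injOn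
  obtain ⟨N, hN⟩ := h1.bddAbove
  refine ⟨N + 1, fun n hn h => ?_⟩
  have := hN (show n ∈ f ⁻¹' B from h)
  omega

end INV

open INV in
theorem t_INV : s_INV.{u, v} := by
  intro G _ D _ M hC g z hz d hd
  have hzn : ∀ n : ℕ, g ^ n * z = z * g ^ n := fun n =>
    ((show Commute z g from hz).pow_right n).eq.symm
  obtain ⟨N1, h1⟩ := large (inj_pos hd) (hC z⁻¹)
  obtain ⟨N2, h2⟩ := large (inj_neg hd) (hC z⁻¹)
  obtain ⟨N, hN⟩ := hd
  refine ⟨N + N1 + N2, fun n hn => ?_⟩
  obtain ⟨h3, h4⟩ := hN n (by omega)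
  have h5 := h1 n (by omega)
  have h6 := h2 n (by omega)
  rw [Set.mem_symmDiff, not_or] at h5 h6
  have e1 : g ^ n • z • d = z • g ^ n • d := by rw [← mul_smul, hzn, mul_smul]
  have e2 : (g ^ n)⁻¹ • z • d = z • (g ^ n)⁻¹ • d := by
    have e3 : (g ^ n)⁻¹ * z = z * (g ^ n)⁻¹ := by
      rw [inv_mul_eq_iff_eq_mul, ← mul_assoc, hzn, mul_assoc, mul_inv_cancel, mul_one]
    rw [← mul_smul, e3, mul_smul]
  rw [e1, e2]
  constructor
  · rw [← Set.mem_inv_smul_set_iff]
    by_contra h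
    exact h5.1 ⟨h3, h⟩
  · rw [← Set.mem_inv_smul_set_iff]
    intro h
    exact h6.2 ⟨h, h4⟩

end Pool.Agent.PWG
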