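import Pool.Agent.PWG.St

/-!
# The set `E = M ∩ Skew M g` and the translates `g ^ n E`

Module POS of `Pool.Agent.PWG`: for some `n > 0` the set `g ^ n E ∖ E` is empty and `E ∖ g ^ n E` is not empty.
-/

set_option autoImplicit false

universe u v

namespace Pool.Agent.PWG

open Pointwise

namespace POS

variable {G : Type u} [Group G] {D : Type v} [MulAction G D]

/-- `Skew M g` is invariant under the positive powers of `g` -/
lemma pow_mem {M : Set D} {g : G} (h1 : ∀ d ∈ Skew M g, g • d ∈ Skew M g) (n : ℕ) :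
    ∀ d ∈ Skew M g, g ^ n • d ∈ Skew M g := by
  induction n with
  | zero => intro d hd; simpa using hd
  | succ n ih =>
    intro d hd
    have := ih _ (h1 d hd)
    rwa [← mul_smul, ← pow_succ] at this

/-- `Skew M g` is invariant under the inverses of the positive powers of `g` -/
lemma inv_pow_mem {M : Set D} {g : G} (h2 : ∀ d ∈ Skew M g, g⁻¹ • d ∈ Skew M g) (n : ℕ) :
    ∀ d ∈ Skew M g, (g ^ n)⁻¹ • d ∈ Skew M g := by
  induction n with
  | zero => intro d hd; simpa using hd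
  | succ n ih =>
    intro d hd
    have := h2 _ (ih d hd)
    rwa [← mul_smul, ← mul_inv_rev, ← pow_succ] at this

/-- a number which serves for all elements of a finite subset of `Skew M g` -/
lemma exists_common {M : Set D} {g : G} {B : Set D} (hB : B.Finite) (hBH : B ⊆ Skew M g) :
    ∃ N : ℕ, ∀ b ∈ B, ∀ n : ℕ, N ≤ n → g ^ n • b ∈ M ∧ (g ^ n)⁻¹ • b ∉ M := by
  classical
  induction B, hB using Set.Finite.induction_on with
  | empty => exact ⟨0, fun b hb => absurd hb (Set.notMem_empty b)⟩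
  | @insert a s _ _ ih =>
    obtain ⟨N, hN⟩ := ih (fun x hx => hBH (Set.mem_insert_of_mem a hx))
    obtain ⟨K, hK⟩ := hBH (Set.mem_insert a s)
    refine ⟨N + K, fun b hb n hn => ?_⟩
    rcases Set.mem_insert_iff.1 hb with rfl | hb
    · exact hK n (by omega)
    · exact hN b hb n (by omega)

/-- the last `k ≥ n` -/
lemma exists_last {M : Set D} {g : G} {e : D} {n K : ℕ} (hn : (g ^ n)⁻¹ • e ∈ M)
    (hK : ∀ k : ℕ, K ≤ k → (g ^ k)⁻¹ • e ∉ M) :
    ∃ k : ℕ, n ≤ k ∧ (g ^ k)⁻¹ • e ∈ M ∧ (g ^ (k + 1))⁻¹ • e ∉ M := by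
  by_contra hcon
  push Not at hcon
  have hall : ∀ j : ℕ, (g ^ (n + j))⁻¹ • e ∈ M := by
    intro j
    induction j with
    | zero => simpa using hn
    | succ j ih => exact hcon (n + j) (by omega) ih
  exact hK (n + K) (by omega) (hall K)

end POS

open POS in
/-- module POS -/
theorem t_POS : s_POS.{u, v} := by
  intro G _ D _ M g h1 h2 hfin hne
  have hBH : symmDiff (M ∩ Skew M g) (g • (M ∩ Skew M g)) ⊆ Skew M g := by
    intro b hb
    rcases hb with hb | hb
    · exact hb.1.2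
    · obtain ⟨e, he, rfl⟩ := Set.mem_smul_set.1 hb.1
      exact h1 e he.2
  obtain ⟨N, hN⟩ := exists_common hfin hBH
  obtain ⟨d, hd⟩ := hne
  obtain ⟨K, hK⟩ := hd
  have hd : d ∈ Skew M g := ⟨K, hK⟩
  refine ⟨N + 2 * K + 1, by omega, ?_, ?_⟩
  · rw [Set.eq_empty_iff_forall_notMem]
    rintro e ⟨he, heE⟩
    obtain ⟨e', he', rfl⟩ := Set.mem_smul_set.1 he
    set n := N + 2 * K + 1 with hn
    have heH : g ^ n • e' ∈ Skew M g := pow_mem h1 n e' he'.2
    have heM : g ^ n • e' ∉ M := fun h => heE ⟨h, heH⟩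
    obtain ⟨L, hL⟩ := heH
    have heH : g ^ n • e' ∈ Skew M g := ⟨L, hL⟩
    obtain ⟨k, hk, hk1, hk2⟩ := exists_last (M := M) (g := g) (e := g ^ n • e') (n := n) (K := L)
      (by rw [inv_smul_smul]; exact he'.1) (fun k hk => (hL k hk).2)
    have hbB : (g ^ k)⁻¹ • g ^ n • e' ∈ symmDiff (M ∩ Skew M g) (g • (M ∩ Skew M g)) := by
      left
      refine ⟨⟨hk1, inv_pow_mem h2 k _ heH⟩, fun hmem => hk2 ?_⟩
      have := Set.mem_smul_set_iff_inv_smul_mem.1 hmem
      rw [← mul_smul, ← mul_inv_rev, ← pow_succ] at this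
      exact this.1
    have := (hN _ hbB k (by omega)).1
    rw [smul_inv_smul] at this
    exact heM this
  · refine ⟨g ^ K • d, ⟨(hK K le_rfl).1, pow_mem h1 K d hd⟩, fun hmem => ?_⟩
    have h3 := (Set.mem_smul_set_iff_inv_smul_mem.1 hmem).1
    have h4 : (g ^ (N + 2 * K + 1))⁻¹ • g ^ K • d = (g ^ (N + K + 1))⁻¹ • d := by
      rw [inv_smul_eq_iff, ← mul_smul]
      congr 1
      rw [show N + 2 * K + 1 = K + (N + K + 1) by omega, pow_add g K (N + K + 1), mul_inv_cancel_right]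
    rw [h4] at h3
    exact (hK (N + K + 1) (by omega)).2 h3

end Pool.Agent.PWG
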