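import Pool.Agent.PWG.St

set_option autoImplicit false

universe u v

namespace Pool.Agent.PWG

namespace SKEx

open Pointwise

variable {G : Type u} [Group G] {D : Type v} [MulAction G D]

theorem mem_sd (M : Set D) (g : G) (d : D) :
    d ∈ symmDiff M (g • M) ↔ ¬(d ∈ M ↔ g⁻¹ • d ∈ M) := by
  rw [Set.mem_symmDiff, Set.mem_smul_set_iff_inv_smul_mem]
  tauto

/-- a sequence of propositions which changes only finitely often -/
theorem ev_const (P : ℤ → Prop) (h : {k : ℤ | ¬(P k ↔ P (k - 1))}.Finite) :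
    ∃ K : ℤ, 0 ≤ K ∧ (∀ k, K ≤ k → (P k ↔ P K)) ∧ ∀ k, k ≤ -K → (P k ↔ P (-K)) := by
  obtain ⟨a, ha⟩ := h.bddAbove
  obtain ⟨b, hb⟩ := h.bddBelow
  refine ⟨max (max a (-b)) 0 + 1, by positivity, ?_, ?_⟩
  · intro k hk
    refine Int.leInduction (motive := fun k _ => (P k ↔ P (max (max a (-b)) 0 + 1))) Iff.rfl
      (fun n hn ih => ?_) k hk
    have h1 : (P (n + 1) ↔ P n) := by
      by_contra h2
      have h3 : n + 1 ∈ {k : ℤ | ¬(P k ↔ P (k - 1))} := by
        show ¬(P (n + 1) ↔ P (n + 1 - 1))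
        rw [add_sub_cancel_right]
        exact h2
      have h4 := ha h3
      have h5 : a ≤ max (max a (-b)) 0 := (le_max_left _ _).trans (le_max_left _ _)
      omega
    exact h1.trans ih
  · intro k hk
    refine Int.leInductionDown (motive := fun k _ => (P k ↔ P (-(max (max a (-b)) 0 + 1))))
      Iff.rfl (fun n hn ih => ?_) k hk
    have h1 : (P (n - 1) ↔ P n) := by
      by_contra h2
      have h3 : n ∈ {k : ℤ | ¬(P k ↔ P (k - 1))} := by
        show ¬(P n ↔ P (n - 1))
        exact fun h => h2 h.symm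
      have h4 := hb h3
      have h5 : -b ≤ max (max a (-b)) 0 := (le_max_right _ _).trans (le_max_left _ _)
      omega
    exact h1.trans ih

theorem bound (M : Set D) (g : G) (hB : (symmDiff M (g • M)).Finite)
    (h1 : ∀ b, b ∉ Skew M g) (h2 : ∀ b, b ∉ Skew M g⁻¹) (b : D) :
    ∃ c : ℕ, ∀ n : ℕ, ({e | ∃ k : ℤ, e = g ^ k • b} ∩ symmDiff M (g ^ n • M)).Finite ∧
      ({e | ∃ k : ℤ, e = g ^ k • b} ∩ symmDiff M (g ^ n • M)).ncard ≤ c := by
  by_cases hinj : Function.Injective fun k : ℤ => g ^ k • b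
  · have hfin : {k : ℤ | ¬((g ^ k • b ∈ M) ↔ (g ^ (k - 1) • b ∈ M))}.Finite := by
      refine (hB.preimage hinj.injOn).subset fun k hk => ?_
      show g ^ k • b ∈ symmDiff M (g • M)
      rw [mem_sd, smul_smul]
      have e : g⁻¹ * g ^ k = g ^ (k - 1) := by
        rw [sub_eq_neg_add, zpow_add, zpow_neg_one]
      rw [e]
      exact hk
    obtain ⟨K, hK0, hK1, hK2⟩ := ev_const (fun k => g ^ k • b ∈ M) hfin
    have hlim : (g ^ K • b ∈ M) ↔ (g ^ (-K) • b ∈ M) := by
      by_contra hne
      by_cases hp : g ^ K • b ∈ M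
      · have hq : g ^ (-K) • b ∉ M := fun hq => hne ⟨fun _ => hq, fun _ => hp⟩
        refine h1 b ⟨K.toNat, fun n hn => ?_⟩
        have hn' : K ≤ (n : ℤ) := by omega
        refine ⟨?_, fun h => hq ?_⟩
        · have := (hK1 n hn').2 hp
          rwa [zpow_natCast] at this
        · have h3 : g ^ (-(n : ℤ)) • b ∈ M := by
            rwa [zpow_neg, zpow_natCast]
          exact (hK2 (-(n : ℤ)) (by omega)).1 h3
      · have hq : g ^ (-K) • b ∈ M := by
          by_contra hq
          exact hne ⟨fun h => absurd h hp, fun h => absurd h hq⟩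
        refine h2 b ⟨K.toNat, fun n hn => ?_⟩
        have hn' : K ≤ (n : ℤ) := by omega
        refine ⟨?_, fun h => hp ?_⟩
        · have := (hK2 (-(n : ℤ)) (by omega)).2 hq
          rwa [zpow_neg, zpow_natCast, ← inv_pow] at this
        · have h3 : g ^ (n : ℤ) • b ∈ M := by
            rw [inv_pow, inv_inv] at h
            rwa [zpow_natCast]
          exact (hK1 n hn').1 h3
    have hall : ∀ k : ℤ, k < -K ∨ K < k → ((g ^ k • b ∈ M) ↔ (g ^ K • b ∈ M)) := by
      intro k hk
      rcases hk with hk | hk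
      · exact (hK2 k hk.le).trans hlim.symm
      · exact hK1 k hk.le
    have hsub : ∀ n : ℕ, ({e | ∃ k : ℤ, e = g ^ k • b} ∩ symmDiff M (g ^ n • M)) ⊆
        ((fun k : ℤ => g ^ k • b) '' (Set.Icc (-K) K)) ∪
          ((fun k : ℤ => g ^ (k + n) • b) '' (Set.Icc (-K) K)) := by
      rintro n e ⟨⟨k, rfl⟩, hk⟩
      rw [mem_sd, smul_smul] at hk
      have e1 : (g ^ n)⁻¹ * g ^ k = g ^ (k - n) := by
        rw [← zpow_natCast, ← zpow_neg, ← zpow_add]
        congr 1
        ring
      rw [e1] at hk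
      by_cases ha : k < -K ∨ K < k
      · right
        by_cases hb : k - n < -K ∨ K < k - n
        · exact absurd ((hall k ha).trans (hall (k - n) hb).symm) hk
        · refine ⟨k - n, ?_, ?_⟩
          · rw [Set.mem_Icc]
            omega
          · show g ^ (k - n + n) • b = g ^ k • b
            rw [sub_add_cancel]
      · left
        refine ⟨k, ?_, rfl⟩
        rw [Set.mem_Icc]
        omega
    have hI : (Set.Icc (-K) K).Finite := Set.finite_Icc _ _
    refine ⟨(Set.Icc (-K) K).ncard + (Set.Icc (-K) K).ncard, fun n => ⟨?_, ?_⟩⟩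
    · exact ((hI.image _).union (hI.image _)).subset (hsub n)
    · refine (Set.ncard_le_ncard (hsub n) ((hI.image _).union (hI.image _))).trans ?_
      refine (Set.ncard_union_le _ _).trans ?_
      exact Nat.add_le_add (Set.ncard_image_le hI) (Set.ncard_image_le hI)
  · have hS : {e | ∃ k : ℤ, e = g ^ k • b}.Finite := by
      rw [Function.Injective] at hinj
      push Not at hinj
      obtain ⟨k, l, hkl, hne⟩ := hinj
      have hper : ∃ m : ℕ, 0 < m ∧ g ^ (m : ℤ) • b = b := by
        have h3 : g ^ (k - l) • b = b := by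
          have h4 : g ^ (-l) • (g ^ k • b) = g ^ (-l) • (g ^ l • b) := congrArg _ hkl
          rw [smul_smul, smul_smul, ← zpow_add, ← zpow_add, neg_add_cancel, zpow_zero, one_smul,
            neg_add_eq_sub] at h4
          exact h4
        rcases lt_or_gt_of_ne hne with h5 | h5
        · refine ⟨(l - k).toNat, by omega, ?_⟩
          have e : (((l - k).toNat : ℕ) : ℤ) = -(k - l) := by omega
          rw [e, zpow_neg]
          exact inv_smul_eq_iff.2 h3.symm
        · refine ⟨(k - l).toNat, by omega, ?_⟩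
          have e : (((k - l).toNat : ℕ) : ℤ) = k - l := by omega
          rw [e]
          exact h3
      obtain ⟨m, hm, hm1⟩ := hper
      have hmul : ∀ q : ℤ, g ^ ((m : ℤ) * q) • b = b := by
        intro q
        have h3 : g ^ (m : ℤ) ∈ MulAction.stabilizer G b := hm1
        have h4 := Subgroup.zpow_mem _ h3 q
        rw [← zpow_mul] at h4
        exact h4
      refine ((Set.finite_Ico (0 : ℤ) m).image fun k : ℤ => g ^ k • b).subset ?_
      rintro e ⟨k, rfl⟩
      refine ⟨k % m, ⟨Int.emod_nonneg _ (by omega), Int.emod_lt_of_pos _ (by omega)⟩, ?_⟩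
      show g ^ (k % m) • b = g ^ k • b
      have e1 : k = k % m + m * (k / m) := (Int.emod_add_mul_ediv k m).symm
      have e2 : g ^ k • b = g ^ (k % m) • g ^ ((m : ℤ) * (k / m)) • b := by
        rw [smul_smul, ← zpow_add, ← e1]
      rw [e2, hmul]
    exact ⟨_, fun n => ⟨hS.subset Set.inter_subset_left,
      Set.ncard_le_ncard Set.inter_subset_left hS⟩⟩

theorem mem_orbit (M : Set D) (g : G) (n : ℕ) (e : D) (he : e ∈ symmDiff M (g ^ n • M)) :
    ∃ b ∈ symmDiff M (g • M), ∃ k : ℤ, e = g ^ k • b := by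
  by_contra hcon
  push Not at hcon
  have h1 : ∀ j : ℕ, ((g ^ j)⁻¹ • e ∈ M ↔ e ∈ M) := by
    intro j
    induction j with
    | zero => rw [pow_zero, inv_one, one_smul]
    | succ j ih =>
      rw [← ih]
      by_contra h2
      refine hcon ((g ^ j)⁻¹ • e) ?_ (j : ℤ) ?_
      · rw [mem_sd, smul_smul, ← mul_inv_rev, ← pow_succ]
        exact fun h => h2 h.symm
      · rw [zpow_natCast, smul_inv_smul]
  rw [mem_sd] at he
  exact he (h1 n).symm

end SKEx

open Pointwise SKEx

theorem t_SKE : s_SKE.{u, v} := by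
  intro G _ D _ M g hB hunb
  by_contra hcon
  rw [not_or, Set.not_nonempty_iff_eq_empty, Set.not_nonempty_iff_eq_empty] at hcon
  have hc := fun b => bound M g hB (fun b hb => by rw [hcon.1] at hb; exact hb)
    (fun b hb => by rw [hcon.2] at hb; exact hb) b
  choose c hc using hc
  obtain ⟨n, hn⟩ := hunb (∑ b ∈ hB.toFinset, c b)
  have hsub : symmDiff M (g ^ n • M) ⊆
      ⋃ b ∈ hB.toFinset, ({e | ∃ k : ℤ, e = g ^ k • b} ∩ symmDiff M (g ^ n • M)) := by
    intro e he
    obtain ⟨b, hb, k, hk⟩ := mem_orbit M g n e he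
    exact Set.mem_iUnion₂.2 ⟨b, hB.mem_toFinset.2 hb, ⟨k, hk⟩, he⟩
  have hfin : (⋃ b ∈ hB.toFinset,
      ({e | ∃ k : ℤ, e = g ^ k • b} ∩ symmDiff M (g ^ n • M))).Finite :=
    Set.Finite.biUnion hB.toFinset.finite_toSet fun b _ => (hc b n).1
  have h1 := Set.ncard_le_ncard hsub hfin
  have h2 : ∀ F : Finset D, (⋃ b ∈ F,
      ({e | ∃ k : ℤ, e = g ^ k • b} ∩ symmDiff M (g ^ n • M))).ncard ≤ ∑ b ∈ F, c b := by
    intro F
    classical
    induction F using Finset.induction_on with
    | empty => simp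
    | insert a F ha ih =>
      rw [Finset.set_biUnion_insert, Finset.sum_insert ha]
      exact (Set.ncard_union_le _ _).trans (Nat.add_le_add (hc a n).2 ih)
  have h3 := h2 hB.toFinset
  omega

end Pool.Agent.PWG
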