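import Pool.Agent.PWG.WSP
import Pool.Agent.PWG.IND
import Pool.Agent.PWG.SKE
import Pool.Agent.PWG.INV
import Pool.Agent.PWG.POS
import Pool.Agent.PWG.COM

/-!
# Groups which act on spaces with walls: the main theorem
-/

set_option autoImplicit false

universe u

namespace Pool.Agent.PWG

/-- groups with commensurating actions have the property `LocED` -/
theorem locED_of_commWalls (G : Type u) [Group G] (h : CommWalls G) : Pool.Agent.SUR.LocED G :=
  locED_walls (t_COM t_IND t_SKE t_INV t_POS) G h

/-- groups which act on spaces with walls such that the elements of infinite order have unbounded orbits have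
the property `LocED` -/
theorem locED_of_walls (G : Type u) [Group G] (h : Walls G) : Pool.Agent.SUR.LocED G :=
  locED_of_commWalls G (commWalls_of_walls G h)

end Pool.Agent.PWG
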