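import Pool.Agent.PWG.St
import Pool.Agent.SUR.StV

/-!
# Commensurating actions and the condition `LocED`
-/

set_option autoImplicit false

universe u

namespace Pool.Agent.PWG

open Pool.Agent.SUR Pointwise

/-- `G` acts on a set `D` with a subset `M` such that the symmetric differences of `M` and `g • M` are finite for
all `g`, and the numbers of elements of the symmetric differences of `M` and `g ^ n • M`, `n ∈ ℕ`, are not bounded
if `g` has infinite order. Every proper action on a space with walls, or on a CAT(0) cube complex of any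
dimension, is an example: `D` is the set of the half spaces, `M` the set of those which contain a base point. -/
def CommWalls (G : Type u) [Group G] : Prop :=
  ∃ (D : Type u) (_ : MulAction G D) (M : Set D), Commens G M ∧
    ∀ g : G, ¬IsOfFinOrder g → ∀ N : ℕ, ∃ n : ℕ, N < (symmDiff M (g ^ n • M)).ncard

namespace LOC

theorem mem_half (k : ℤ) : (2 : ℚ) ^ k ∈ Subring.closure {(1 / 2 : ℚ)} := by
  rcases Int.eq_nat_or_neg k with ⟨n, rfl | rfl⟩
  · rw [zpow_natCast]
    exact Subring.pow_mem _ (by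
      have : (2 : ℚ) = ((2 : ℤ) : ℚ) := by norm_num
      rw [this]
      exact intCast_mem _ 2) n
  · rw [zpow_neg, zpow_natCast, ← inv_pow]
    refine Subring.pow_mem _ ?_ n
    have : (2 : ℚ)⁻¹ = 1 / 2 := by norm_num
    rw [this]
    exact Subring.subset_closure (Set.mem_singleton _)

/-- homomorphisms to `ℤ` of the centralisers are sufficient -/
theorem centEulD_of_hom {G : Type u} [Group G]
    (h : ∀ g : G, ¬IsOfFinOrder g → ∃ φ : Subgroup.centralizer {g} →* Multiplicative ℤ,
      φ ⟨g, Subgroup.mem_centralizer_singleton_iff.2 rfl⟩ ≠ 1) : CentEulD G := by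
  let ι : ℚ →+* ULift.{u} ℚ := (ULift.ringEquiv (R := ℚ)).symm.toRingHom
  have hι : Function.Injective ι := ι.injective
  refine ⟨ULift.{u} ℚ, inferInstance, {ι (1 / 2 : ℚ)}, 1, Set.finite_singleton _, one_pos,
    fun g hg => Or.inl ?_⟩
  obtain ⟨φ, hφ⟩ := h g hg
  let ρ : Subgroup.centralizer {g} →* Matrix (Fin 1) (Fin 1) (ULift.{u} ℚ) :=
    { toFun := fun z => Matrix.scalar (Fin 1) (ι ((2 : ℚ) ^ (Multiplicative.toAdd (φ z))))
      map_one' := by
        rw [map_one, toAdd_one, zpow_zero, map_one, map_one]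
      map_mul' := fun z w => by
        rw [map_mul, toAdd_mul, zpow_add₀ (by norm_num : (2 : ℚ) ≠ 0), map_mul, map_mul] }
  have hval : ∀ z, ρ z = Matrix.scalar (Fin 1) (ι ((2 : ℚ) ^ (Multiplicative.toAdd (φ z)))) :=
    fun z => rfl
  have hmem : ∀ k : ℤ, ι ((2 : ℚ) ^ k) ∈ Subring.closure {ι (1 / 2 : ℚ)} := by
    intro k
    have h1 : ι ((2 : ℚ) ^ k) ∈ (Subring.closure {(1 / 2 : ℚ)}).map ι :=
      Subring.mem_map.2 ⟨_, mem_half k, rfl⟩
    rw [RingHom.map_closure, Set.image_singleton] at h1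
    exact h1
  refine ⟨ρ, 1, one_ne_zero, fun z i j => ?_, fun hfin => ?_⟩
  · rw [one_mul, hval, Matrix.scalar_apply, Matrix.diagonal_apply]
    split_ifs
    · exact hmem _
    · exact Subring.zero_mem _
  · obtain ⟨n, hn, h1⟩ := isOfFinOrder_iff_pow_eq_one.1 hfin
    rw [hval, ← map_pow, ← map_pow] at h1
    have h2 := congrFun (congrFun h1 0) 0
    rw [Matrix.scalar_apply, Matrix.diagonal_apply_eq, Matrix.one_apply_eq, ← map_one ι] at h2
    have h2' := hι h2
    have h3 : (2 : ℚ) ^ (Multiplicative.toAdd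
        (φ ⟨g, Subgroup.mem_centralizer_singleton_iff.2 rfl⟩)) = 1 := by
      have h4 : (0 : ℚ) ≤ (2 : ℚ) ^ (Multiplicative.toAdd
        (φ ⟨g, Subgroup.mem_centralizer_singleton_iff.2 rfl⟩)) := by positivity
      exact (pow_eq_one_iff_of_nonneg h4 hn.ne').1 h2'
    have h5 : Multiplicative.toAdd
        (φ ⟨g, Subgroup.mem_centralizer_singleton_iff.2 rfl⟩) = 0 := by
      have := (zpow_eq_one_iff_right₀ (by norm_num : (0 : ℚ) ≤ 2) (by norm_num)).1 h3
      exact this
    exact hφ (Multiplicative.toAdd.injective (by rw [h5]; rfl))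

/-- the centralisers in a subgroup -/
theorem hom_subgroup {G : Type u} [Group G] (G₀ : Subgroup G)
    (h : ∀ g : G, ¬IsOfFinOrder g → ∃ φ : Subgroup.centralizer {g} →* Multiplicative ℤ,
      φ ⟨g, Subgroup.mem_centralizer_singleton_iff.2 rfl⟩ ≠ 1) :
    ∀ g : G₀, ¬IsOfFinOrder g → ∃ φ : Subgroup.centralizer {g} →* Multiplicative ℤ,
      φ ⟨g, Subgroup.mem_centralizer_singleton_iff.2 rfl⟩ ≠ 1 := by
  intro g hg
  have hg' : ¬IsOfFinOrder (g : G) := fun h => hg (Submonoid.isOfFinOrder_coe.1 h)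
  obtain ⟨φ, hφ⟩ := h g hg'
  let c : Subgroup.centralizer {g} →* Subgroup.centralizer {(g : G)} :=
    (G₀.subtype.comp (Subgroup.centralizer {g}).subtype).codRestrict _ (fun z => by
      have hz := Subgroup.mem_centralizer_singleton_iff.1 z.2
      refine Subgroup.mem_centralizer_singleton_iff.2 ?_
      exact congrArg (fun w : G₀ => (w : G)) hz)
  exact ⟨φ.comp c, hφ⟩

end LOC

/-- homomorphisms to `ℤ` of the centralisers give `LocED` -/
theorem locED_of_hom (G : Type u) [Group G]
    (h : ∀ g : G, ¬IsOfFinOrder g → ∃ φ : Subgroup.centralizer {g} →* Multiplicative ℤ,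
      φ ⟨g, Subgroup.mem_centralizer_singleton_iff.2 rfl⟩ ≠ 1) : LocED G :=
  fun G₀ _ => Or.inl (LOC.centEulD_of_hom (LOC.hom_subgroup G₀ h))

/-- groups with commensurating actions -/
theorem locED_walls (hCOM : s_COM.{u, u}) (G : Type u) [Group G] (h : CommWalls G) :
    LocED G := by
  obtain ⟨D, hD, M, hM, h1⟩ := h
  exact locED_of_hom G fun g hg => hCOM G D M hM g (h1 g hg)

end Pool.Agent.PWG
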