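import Mathlib

/-!
# Groups with commensurating actions (spaces with walls, CAT(0) cube complexes): definitions and statements

A group `G` acts on a set `D`; the subset `M` of `D` has a finite symmetric difference with all its translates
`g • M` (`Commens`). Example: `G` acts on a space with walls, or on a CAT(0) cube complex of any dimension, `D` is
the set of the half spaces and `M` the set of the half spaces which contain a base point `x`; the number of
elements of the symmetric difference of `M` and `g • M` is twice the number of the walls between `x` and `g x`.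

Theorem. If the numbers of elements of the symmetric differences of `M` and `g ^ n • M`, `n ∈ ℕ`, are not bounded,
then the centraliser of `g` has a homomorphism to `ℤ` which is not `0` at `g` (COM).

All modules: `theorem Pool.Agent.PWG.t_XXX : s_XXX` in `Pool/Agent/PWG/XXX.lean` (hypotheses as arguments),
auxiliary lemmas in namespace `Pool.Agent.PWG.XXX`.
-/

set_option autoImplicit false

universe u v

namespace Pool.Agent.PWG

open Pointwise

/-- all symmetric differences of `M` and its translates are finite -/
def Commens (G : Type u) [Group G] {D : Type v} [MulAction G D] (M : Set D) : Prop :=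
  ∀ g : G, (symmDiff M (g • M)).Finite

/-- the elements `d` such that `g ^ n d` is in `M` and `g ^ (-n) d` is not in `M` for all large `n` -/
def Skew {G : Type u} [Group G] {D : Type v} [MulAction G D] (M : Set D) (g : G) : Set D :=
  {d | ∃ N : ℕ, ∀ n : ℕ, N ≤ n → g ^ n • d ∈ M ∧ (g ^ n)⁻¹ • d ∉ M}

/-- IND (80 lines), no hypotheses. The index. `τ z = |z E ∖ E| - |E ∖ z E|` (`Set.ncard`). For finite `F` which
contains the symmetric difference of `A` and `B`: `|A ∖ B| - |B ∖ A| = |A ∩ F| - |B ∩ F|`. So, with `F` the union of the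
finite symmetric differences of `E`, `z E` and `z w E`, the index of `(z w E, E)` is the index of `(z w E, z E)` plus
that of `(z E, E)`, and `z` maps `w E ∖ E` to `z w E ∖ z E`. -/
def s_IND : Prop := ∀ (G : Type u) [Group G] (D : Type v) [MulAction G D] (E : Set D),
  Commens G E → ∃ τ : G →* Multiplicative ℤ, ∀ z : G,
    Multiplicative.toAdd (τ z) = ((z • E \ E).ncard : ℤ) - (E \ z • E).ncard

/-- SKE (130 lines), no hypotheses. Suppose that `Skew M g` and `Skew M g⁻¹` are empty. `B` = the symmetric difference
of `M` and `g M`, finite; `d ∈ B` if and only if exactly one of `d`, `g⁻¹ d` is in `M`. (a) Each element `e` of the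
symmetric difference of `M` and `g ^ n M` is of the form `g ^ j b`, `b ∈ B`, `0 ≤ j < n` (telescoping). (b) For
`b ∈ B` let `S` be the set of the `g ^ k b`, `k ∈ ℤ`. There is `c` such that for all `n` at most `c` elements of `S` are
in the symmetric difference of `M` and `g ^ n M`: clear if `S` is finite. Otherwise `k ↦ g ^ k b` is injective, so
`g ^ k b ∈ B` only for finitely many `k`, and `g ^ k b ∈ M` does not depend on `k` for `k` large, and for `-k` large; as
`b` is in neither of the two sets (note `(g⁻¹) ^ n = (g ^ n)⁻¹`) both limits are the same, so `S ∩ M` or `S ∖ M` is a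
finite set `E`, and the elements in question are in `E ∪ g ^ n E`. (c) So the numbers are bounded by the sum of the
`c` over `b ∈ B`. -/
def s_SKE : Prop := ∀ (G : Type u) [Group G] (D : Type v) [MulAction G D] (M : Set D) (g : G),
  (symmDiff M (g • M)).Finite → (∀ N : ℕ, ∃ n : ℕ, N < (symmDiff M (g ^ n • M)).ncard) →
    (Skew M g).Nonempty ∨ (Skew M g⁻¹).Nonempty

/-- INV (70 lines), no hypotheses. Let `d ∈ Skew M g`. The `g ^ k d`, `k ∈ ℤ`, are different: if `g ^ k d = d`, `k > 0`,
then `g ^ (k n) d = d` is in `M` and `g ^ (- k n) d = d` is not in `M` for large `n`. The symmetric difference of `M`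
and `z⁻¹ M` is finite, so for large `n` it does not contain `g ^ n d` and `g ^ (-n) d`. `g ^ n z d = z g ^ n d ∈ M` if
and only if `g ^ n d ∈ z⁻¹ M`. -/
def s_INV : Prop := ∀ (G : Type u) [Group G] (D : Type v) [MulAction G D] (M : Set D),
  Commens G M → ∀ g z : G, z * g = g * z → ∀ d ∈ Skew M g, z • d ∈ Skew M g

/-- POS (100 lines), no hypotheses. `H = Skew M g`, `E = M ∩ H`, invariance of `H`: `hH`. `B` = the symmetric difference
of `E` and `g E`, finite. For `b ∈ B ⊆ H` let `N b` be the number from the definition of `Skew`, `N` the maximum.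
(a) `g ^ n E ∖ E` is empty for `n ≥ N`: let `e ∈ H`, `e ∉ M`, `g ^ (-n) e ∈ M`. As `g ^ (-k) e ∉ M` for large `k`
there is `k ≥ n` with `g ^ (-k) e ∈ M`, `g ^ (-(k+1)) e ∉ M`, so `b = g ^ (-k) e ∈ B` and `e = g ^ k b ∈ M`, as
`k ≥ n ≥ N b`. (b) Let `d ∈ H` with number `N'`; for `n ≥ 2 N'` the element `e = g ^ N' d` is in `E` and
`g ^ (-n) e = g ^ (N' - n) d ∉ M`, so `E ∖ g ^ n E` is not empty. -/
def s_POS : Prop := ∀ (G : Type u) [Group G] (D : Type v) [MulAction G D] (M : Set D) (g : G),
  (∀ d ∈ Skew M g, g • d ∈ Skew M g) → (∀ d ∈ Skew M g, g⁻¹ • d ∈ Skew M g) →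
  (symmDiff (M ∩ Skew M g) (g • (M ∩ Skew M g))).Finite → (Skew M g).Nonempty →
    ∃ n : ℕ, 0 < n ∧ g ^ n • (M ∩ Skew M g) \ (M ∩ Skew M g) = ∅ ∧
      ((M ∩ Skew M g) \ g ^ n • (M ∩ Skew M g)).Nonempty

/-- COM (100 lines), hypotheses `s_IND`, `s_SKE`, `s_INV`, `s_POS`. By SKE `Skew M h` is not empty for `h = g` or
`h = g⁻¹`. Let `H = Skew M h`, `C` = the centraliser of `g`, which is that of `h`; `z H = H` for `z ∈ C` (INV for `z`
and `z⁻¹`), so `E = M ∩ H` satisfies `z E = z M ∩ H` and `Commens C E` (for the action of `C` on `D`). `τ` from IND for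
`C`, `E`. By POS `τ (h ^ n) ≠ 0` for some `n > 0`: it is minus the number of elements of the finite set
`E ∖ h ^ n E`. So `τ h ≠ 0` and `τ g ≠ 0`. -/
def s_COM : Prop := ∀ (G : Type u) [Group G] (D : Type v) [MulAction G D] (M : Set D),
  Commens G M → ∀ g : G, (∀ N : ℕ, ∃ n : ℕ, N < (symmDiff M (g ^ n • M)).ncard) →
    ∃ φ : Subgroup.centralizer {g} →* Multiplicative ℤ,
      φ ⟨g, Subgroup.mem_centralizer_singleton_iff.2 rfl⟩ ≠ 1

end Pool.Agent.PWG
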