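import Pool.Agent.PWG.Defs
import Pool.Agent.PWG.LOC

/-!
# Spaces with walls and commensurating actions
-/

set_option autoImplicit false

universe u

namespace Pool.Agent.PWG

open Pointwise

namespace WSP

variable {G : Type u} [Group G] {X : Type u} [MulAction G X] {H : Set (Set X)}

/-- the action on the half spaces -/
@[reducible] def act (hH : ∀ (g : G), ∀ h ∈ H, g • h ∈ H) : MulAction G H where
  smul g d := ⟨g • (d : Set X), hH g _ d.2⟩
  one_smul d := Subtype.ext (one_smul G (d : Set X))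
  mul_smul g k d := Subtype.ext (mul_smul g k (d : Set X))

/-- the half spaces which contain `x` -/
def at_ (H : Set (Set X)) (x : X) : Set H := {d | x ∈ (d : Set X)}

theorem sd (hH : ∀ (g : G), ∀ h ∈ H, g • h ∈ H) (x : X) (g : G) :
    letI := act hH
    Subtype.val '' (symmDiff (at_ H x) (g • at_ H x)) =
      {h | h ∈ H ∧ ¬(x ∈ h ↔ g • x ∈ h)} := by
  letI := act hH
  ext h
  constructor
  · rintro ⟨d, hd, rfl⟩
    refine ⟨d.2, ?_⟩
    rw [Set.mem_symmDiff, Set.mem_smul_set_iff_inv_smul_mem] at hd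
    have e : (g⁻¹ • d ∈ at_ H x) ↔ g • x ∈ (d : Set X) := by
      show x ∈ g⁻¹ • (d : Set X) ↔ _
      rw [Set.mem_smul_set_iff_inv_smul_mem, inv_inv]
    rw [e] at hd
    have e2 : (d ∈ at_ H x) ↔ x ∈ (d : Set X) := Iff.rfl
    rw [e2] at hd
    tauto
  · rintro ⟨h1, h2⟩
    refine ⟨⟨h, h1⟩, ?_, rfl⟩
    rw [Set.mem_symmDiff, Set.mem_smul_set_iff_inv_smul_mem]
    have e : (g⁻¹ • (⟨h, h1⟩ : H) ∈ at_ H x) ↔ g • x ∈ h := by
      show x ∈ g⁻¹ • h ↔ _
      rw [Set.mem_smul_set_iff_inv_smul_mem, inv_inv]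
    rw [e]
    have e2 : ((⟨h, h1⟩ : H) ∈ at_ H x) ↔ x ∈ h := Iff.rfl
    rw [e2]
    tauto

end WSP

theorem commWalls_of_walls (G : Type u) [Group G] (h : Walls G) : CommWalls G := by
  obtain ⟨X, hX, H, hH, hfin, x, hx⟩ := h
  letI := WSP.act hH
  refine ⟨H, WSP.act hH, WSP.at_ H x, fun g => ?_, fun g hg N => ?_⟩
  · have h1 : {h | h ∈ H ∧ ¬(x ∈ h ↔ g • x ∈ h)}.Finite := by
      refine ((hfin x (g • x)).union (hfin (g • x) x)).subset ?_
      rintro h ⟨h1, h2⟩
      by_cases h3 : x ∈ h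
      · exact Or.inl ⟨h1, h3, fun h4 => h2 ⟨fun _ => h4, fun _ => h3⟩⟩
      · refine Or.inr ⟨h1, ?_, h3⟩
        by_contra h4
        exact h2 ⟨fun h5 => absurd h5 h3, fun h5 => absurd h5 h4⟩
    rw [← WSP.sd hH x g] at h1
    exact h1.of_finite_image Subtype.val_injective.injOn
  · obtain ⟨n, hn⟩ := hx g hg N
    refine ⟨n, ?_⟩
    rw [← WSP.sd hH x (g ^ n), Set.ncard_image_of_injective _ Subtype.val_injective] at hn
    exact hn

end Pool.Agent.PWG
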